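import Pool.Agent.V11231.IXF.Fin
import Pool.Agent.V11231.IXF.Two
import Pool.Agent.H525R4.Mono.Lower

/-! Data structures for SetIntersection whose cells are computed with unreliable negations. -/

set_option autoImplicit false
set_option linter.unusedSectionVars false
set_option linter.unusedVariables false

namespace Pool.Agent.V11231.SIF

open Finset Pool.Agent.V11231.FLT Pool.Agent.V11231.VCF Pool.Agent.V11231.IXF
open Pool.Agent.H525R4.Mono (MonoDS Solves)

/-- A data structure with `s` cells for families of `m` subsets of a universe with `u` elements,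
given by their membership bits: the bit `(i, e)` says whether `e` is in the set number `i`. The
literal `((i, e), true)` is this bit and `((i, e), false)` is its negation. Each cell contains a
nondecreasing real function of the values of all literals. The query `(i, j)` reads the cells
`reads i j M` if `M` is the contents of the memory (adaptively), and reports the set `answer i j M`,
which is nondecreasing in `M` and is determined by the contents of the cells read. -/
structure LiteralDS (m u s : ℕ) where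
  cell : Fin s → ((Fin m × Fin u) × Bool → Bool) → ℝ
  cell_mono : ∀ c, Monotone (cell c)
  reads : Fin m → Fin m → (Fin s → ℝ) → Finset (Fin s)
  answer : Fin m → Fin m → (Fin s → ℝ) → Finset (Fin u)
  answer_mono : ∀ i j, Monotone (answer i j)
  answer_reads : ∀ i j M M', (∀ c ∈ reads i j M, M' c = M c) → answer i j M' = answer i j M

/-- The contents of the memory for the family with the membership bits `x`, if the negated bits in
`Z` are stuck at `0`. -/
noncomputable def LiteralDS.memory {m u s : ℕ} (C : LiteralDS m u s) (x : Fin m × Fin u → Bool)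
    (Z : Set (Fin m × Fin u)) : Fin s → ℝ :=
  fun c => C.cell c (literals x Z)

/-- The set reported for the query `(i, j)`. -/
noncomputable def LiteralDS.reported {m u s : ℕ} (C : LiteralDS m u s) (x : Fin m × Fin u → Bool)
    (Z : Set (Fin m × Fin u)) (i j : Fin m) : Finset (Fin u) :=
  C.answer i j (C.memory x Z)

/-- The number of cells read for the query `(i, j)`. -/
noncomputable def LiteralDS.probes {m u s : ℕ} (C : LiteralDS m u s) (x : Fin m × Fin u → Bool)
    (Z : Set (Fin m × Fin u)) (i j : Fin m) : ℕ :=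
  (C.reads i j (C.memory x Z)).card

/-- The intersection of the sets number `i` and `j`. -/
def common {m u : ℕ} (x : Fin m × Fin u → Bool) (i j : Fin m) : Finset (Fin u) :=
  univ.filter fun e => x (i, e) = true ∧ x (j, e) = true

/-- The total size of the family. -/
def total {m u : ℕ} (x : Fin m × Fin u → Bool) : ℕ := (univ.filter fun e => x e = true).card

variable {m n K D s : ℕ}

/-- the positions in the classes -/
def posS (K : ℕ) (F : Fin m → Finset (Fin n)) : Set (Fin m × Fin (n * K)) :=
  {e | ∃ k : Fin n, (e.2 : ℕ) / K = k ∧ k ∈ F e.1}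

lemma posS_mono {F F' : Fin m → Finset (Fin n)} (h : F ≤ F') : posS K F ⊆ posS K F' := by
  rintro e ⟨k, hk, hF⟩
  exact ⟨k, hk, h e.1 hF⟩

/-- the values of the literals -/
noncomputable def litS (K : ℕ) (f : Fin m × Fin (n * K) → Fin D) (F : Fin m → Finset (Fin n)) :
    (Fin m × Fin (n * K)) × Bool → Bool :=
  literals (mix (posS K F) (fun _ => false) f) (flt f)

/-- the monotone data structure for the small family -/
noncomputable def derived (K : ℕ) (C : LiteralDS m (n * K) s) (f : Fin m × Fin (n * K) → Fin D) :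
    MonoDS m n s where
  cell c F := C.cell c (litS K f F)
  cell_mono c F F' h := C.cell_mono c (lit_mono (posS_mono h) f)
  reads i j M := C.reads i j M
  answer i j M := univ.filter fun e : Fin n => ∃ y ∈ C.answer i j M, (y : ℕ) / K = e
  answer_mono i j M M' h := by
    intro e he
    rw [mem_filter] at he ⊢
    obtain ⟨-, y, hy, hye⟩ := he
    exact ⟨mem_univ _, y, C.answer_mono i j h hy, hye⟩
  answer_reads i j M M' h := by
    rw [C.answer_reads i j M M' h]

lemma derived_out (C : LiteralDS m (n * K) s) (f : Fin m × Fin (n * K) → Fin D)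
    (F : Fin m → Finset (Fin n)) (i j : Fin m) (e : Fin n) :
    e ∈ (derived K C f).out F i j ↔
      ∃ y ∈ C.answer i j (fun c => C.cell c (litS K f F)), (y : ℕ) / K = e := by
  show e ∈ univ.filter (fun e : Fin n => ∃ y ∈ C.answer i j (fun c => C.cell c (litS K f F)),
    (y : ℕ) / K = e) ↔ _
  rw [mem_filter]
  exact ⟨fun h => h.2, fun h => ⟨mem_univ _, h⟩⟩

lemma mem_common (F : Fin m → Finset (Fin n)) (f : Fin m × Fin (n * K) → Fin D) (i j : Fin m)
    (y : Fin (n * K)) :
    y ∈ common (mix (posS K F) (fun _ => false) f) i j ↔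
      (∃ k : Fin n, (y : ℕ) / K = k ∧ k ∈ F i ∩ F j) ∧ (f (i, y) : ℕ) = 0 ∧
        (f (j, y) : ℕ) = 0 := by
  unfold common
  rw [mem_filter, mix_eq_true, mix_eq_true]
  constructor
  · rintro ⟨-, ⟨⟨k, hk, hF⟩, h1⟩, ⟨⟨k', hk', hF'⟩, h2⟩⟩
    have : k' = k := Fin.ext (hk'.symm.trans hk)
    subst this
    exact ⟨⟨k', hk, mem_inter.mpr ⟨hF, hF'⟩⟩, h1, h2⟩
  · rintro ⟨⟨k, hk, hF⟩, h1, h2⟩
    rw [mem_inter] at hF
    exact ⟨mem_univ _, ⟨⟨k, hk, hF.1⟩, h1⟩, ⟨⟨k, hk, hF.2⟩, h2⟩⟩

/-- a common faulty position in the class of `e` -/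
def Both (K : ℕ) (i j : Fin m) (e : Fin n) (f : Fin m × Fin (n * K) → Fin D) : Prop :=
  ∃ y : Fin (n * K), (y : ℕ) / K = e ∧ (f (i, y) : ℕ) = 0 ∧ (f (j, y) : ℕ) = 0

lemma class_lt (e : Fin n) (q : Fin K) : (e : ℕ) * K + q < n * K := by
  have h1 := e.isLt
  have h2 := q.isLt
  calc (e : ℕ) * K + q < (e : ℕ) * K + K := by omega
    _ = (e + 1) * K := by ring
    _ ≤ n * K := Nat.mul_le_mul_right K h1

open Classical in
/-- most functions have a common faulty position -/
lemma card_not_both (hD : 0 < D) {i j : Fin m} (hij : i ≠ j) (e : Fin n) :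
    ((univ.filter fun f : Fin m × Fin (n * K) → Fin D => ¬ Both K i j e f).card : ℝ) ≤
      (1 - 1 / (D : ℝ) ^ 2) ^ K * (D : ℝ) ^ Fintype.card (Fin m × Fin (n * K)) := by
  have h3 := Pool.Agent.V11231.SMF.card_pairs hD (fun f : Fin m × Fin (n * K) → Fin D => True)
    (fun q : Fin K => ((i, ⟨(e : ℕ) * K + q, class_lt e q⟩) : Fin m × Fin (n * K)))
    (fun q : Fin K => ((j, ⟨(e : ℕ) * K + q, class_lt e q⟩) : Fin m × Fin (n * K)))
    (by
      intro q q' h
      exact hij (Prod.mk.inj h).1)
    (by
      intro q q' h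
      have h4 := Fin.mk.inj (Prod.mk.inj h).2
      exact Fin.ext (by omega))
    (by
      intro q q' h
      have h4 := Fin.mk.inj (Prod.mk.inj h).2
      exact Fin.ext (by omega))
    (fun _ _ _ => Iff.rfl) (fun _ _ _ => Iff.rfl) (univ : Finset (Fin K))
  rw [card_univ, Fintype.card_fin] at h3
  have h4 : ((univ.filter fun f : Fin m × Fin (n * K) → Fin D => True).card : ℝ) =
      (D : ℝ) ^ Fintype.card (Fin m × Fin (n * K)) := by
    rw [filter_true, card_univ, Fintype.card_fun, Fintype.card_fin]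
    push_cast
    rfl
  have h5 : (univ.filter fun f : Fin m × Fin (n * K) → Fin D => ¬ Both K i j e f).card ≤
      (univ.filter fun f : Fin m × Fin (n * K) → Fin D => True ∧ ∀ q ∈ (univ : Finset (Fin K)),
        ¬ ((f (i, ⟨(e : ℕ) * K + q, class_lt e q⟩) : ℕ) = 0 ∧
          (f (j, ⟨(e : ℕ) * K + q, class_lt e q⟩) : ℕ) = 0)).card := by
    refine card_le_card fun f hf => ?_
    rw [mem_filter] at hf ⊢
    refine ⟨mem_univ _, trivial, fun q _ h => hf.2 ?_⟩
    have hq := q.isLt
    refine ⟨⟨(e : ℕ) * K + q, class_lt e q⟩, ?_, h.1, h.2⟩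
    show ((e : ℕ) * K + q) / K = e
    rw [Nat.mul_comm, Nat.mul_add_div (by omega), Nat.div_eq_of_lt hq, Nat.add_zero]
  have h6 : ((univ.filter fun f : Fin m × Fin (n * K) → Fin D => ¬ Both K i j e f).card : ℝ) ≤
      ((univ.filter fun f : Fin m × Fin (n * K) → Fin D => True ∧ ∀ q ∈ (univ : Finset (Fin K)),
        ¬ ((f (i, ⟨(e : ℕ) * K + q, class_lt e q⟩) : ℕ) = 0 ∧
          (f (j, ⟨(e : ℕ) * K + q, class_lt e q⟩) : ℕ) = 0)).card : ℝ) := by
    exact_mod_cast h5
  refine h6.trans (le_of_eq ?_)
  refine Eq.trans (Eq.trans ?_ h3) ?_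
  · congr!
  · rw [← h4]
    congr!

open Classical in
/-- the expected size of the large intersection -/
lemma sum_common (hD : 0 < D) (F : Fin m → Finset (Fin n)) {i j : Fin m} (hij : i ≠ j) :
    (D : ℝ) ^ 2 * ∑ f : Fin m × Fin (n * K) → Fin D,
      ((common (mix (posS K F) (fun _ => false) f) i j).card : ℝ) ≤
      ((F i ∩ F j).card * K : ℕ) * (D : ℝ) ^ Fintype.card (Fin m × Fin (n * K)) := by
  have hDR : (0 : ℝ) < D := by exact_mod_cast hD
  set Y : Finset (Fin (n * K)) := univ.filter fun y => ∃ k : Fin n, (y : ℕ) / K = k ∧ k ∈ F i ∩ F j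
    with hY
  have hYc : Y.card ≤ (F i ∩ F j).card * K := by
    rcases Nat.eq_zero_or_pos K with hK | hK
    · subst hK
      have : Y = ∅ := by
        rw [Finset.eq_empty_iff_forall_notMem]
        intro y
        have := y.isLt
        omega
      rw [this]
      simp
    have h1 : Y ⊆ ((F i ∩ F j) ×ˢ (univ : Finset (Fin K))).image
        fun p => (⟨(p.1 : ℕ) * K + p.2, class_lt p.1 p.2⟩ : Fin (n * K)) := by
      intro y hy
      rw [hY, mem_filter] at hy
      obtain ⟨-, k, hk, hF⟩ := hy
      rw [mem_image]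
      refine ⟨(k, ⟨(y : ℕ) % K, Nat.mod_lt _ hK⟩), mem_product.mpr ⟨hF, mem_univ _⟩, ?_⟩
      refine Fin.ext ?_
      show (k : ℕ) * K + (y : ℕ) % K = y
      rw [← hk, Nat.mul_comm]
      exact Nat.div_add_mod _ _
    refine (card_le_card h1).trans (card_image_le.trans ?_)
    rw [card_product, card_univ, Fintype.card_fin]
  have h2 : ∀ f : Fin m × Fin (n * K) → Fin D,
      ((common (mix (posS K F) (fun _ => false) f) i j).card : ℝ) =
      ∑ y ∈ Y, if (f (i, y) : ℕ) = 0 ∧ (f (j, y) : ℕ) = 0 then (1 : ℝ) else 0 := by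
    intro f
    rw [Finset.sum_boole]
    congr 2
    ext y
    rw [mem_common, mem_filter, hY, mem_filter]
    constructor
    · rintro ⟨h3, h4⟩
      exact ⟨⟨mem_univ _, h3⟩, h4⟩
    · rintro ⟨⟨_, h3⟩, h4⟩
      exact ⟨h3, h4⟩
  rw [Finset.sum_congr rfl fun f _ => h2 f, Finset.sum_comm]
  have h3 : ∀ y ∈ Y, (D : ℝ) ^ 2 * ∑ f : Fin m × Fin (n * K) → Fin D,
      (if (f (i, y) : ℕ) = 0 ∧ (f (j, y) : ℕ) = 0 then (1 : ℝ) else 0) =
      (D : ℝ) ^ Fintype.card (Fin m × Fin (n * K)) := by
    intro y _
    rw [Finset.sum_boole]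
    have g1 := Pool.Agent.V11231.SMF.card_zero hD
      (fun f : Fin m × Fin (n * K) → Fin D => (f (i, y) : ℕ) = 0) (j, y) (by
        intro f x
        rw [Function.update_of_ne]
        intro h
        exact hij (Prod.mk.inj h).1)
    have g2 := Pool.Agent.V11231.SMF.card_zero hD
      (fun _ : Fin m × Fin (n * K) → Fin D => True) (i, y) (fun _ _ => Iff.rfl)
    have g3 : ((univ.filter fun f : Fin m × Fin (n * K) → Fin D => True).card : ℝ) =
        (D : ℝ) ^ Fintype.card (Fin m × Fin (n * K)) := by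
      rw [filter_true, card_univ, Fintype.card_fun, Fintype.card_fin]
      push_cast
      rfl
    have g4 : ((univ.filter fun f : Fin m × Fin (n * K) → Fin D => (f (i, y) : ℕ) = 0).card : ℝ) =
        ((univ.filter fun f : Fin m × Fin (n * K) → Fin D => True ∧ (f (i, y) : ℕ) = 0).card :
          ℝ) := by
      congr 2
      ext f
      simp
    rw [sq, mul_assoc]
    have g5 : (D : ℝ) * ((univ.filter fun f : Fin m × Fin (n * K) → Fin D =>
        (f (i, y) : ℕ) = 0 ∧ (f (j, y) : ℕ) = 0).card : ℝ) =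
        ((univ.filter fun f : Fin m × Fin (n * K) → Fin D => (f (i, y) : ℕ) = 0).card : ℝ) := by
      refine Eq.trans ?_ (Eq.trans g1 ?_)
      · congr!
      · congr!
    rw [g5, g4]
    refine Eq.trans ?_ (Eq.trans g2 ?_)
    · congr!
    · rw [← g3]
      congr!
  rw [mul_sum, Finset.sum_congr rfl h3, Finset.sum_const, nsmul_eq_mul]
  have h4 : (Y.card : ℝ) ≤ (((F i ∩ F j).card * K : ℕ) : ℝ) := by exact_mod_cast hYc
  exact mul_le_mul_of_nonneg_right h4 (by positivity)

open Classical in
/-- the host family is small for most functions -/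
lemma card_not_total (hD : 0 < D) (F : Fin m → Finset (Fin n)) (N : ℕ)
    (hN : 50 * (m * n * K) ≤ N * D) (hNpos : 0 < N) :
    ((univ.filter fun f : Fin m × Fin (n * K) → Fin D =>
      ¬ total (mix (posS K F) (fun _ => false) f) ≤ N).card : ℝ) ≤
      1 / 50 * (D : ℝ) ^ Fintype.card (Fin m × Fin (n * K)) := by
  have hDR : (0 : ℝ) < D := by exact_mod_cast hD
  have hNR : (0 : ℝ) < N := by exact_mod_cast hNpos
  set T : Finset (Fin m × Fin (n * K)) := univ.filter fun e => e ∈ posS K F with hT
  have hsz : ∀ f : Fin m × Fin (n * K) → Fin D, total (mix (posS K F) (fun _ => false) f) =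
      (T.filter fun e => (f e : ℕ) = 0).card := by
    intro f
    unfold total
    congr 1
    ext e
    rw [mem_filter, mem_filter, hT, mem_filter, mix_eq_true]
    constructor
    · rintro ⟨_, h1, h2⟩
      exact ⟨⟨mem_univ _, h1⟩, h2⟩
    · rintro ⟨⟨_, h1⟩, h2⟩
      exact ⟨mem_univ _, h1, h2⟩
  have hBc : T.card ≤ m * n * K := by
    have h1 := Finset.card_le_univ T
    rw [Fintype.card_prod, Fintype.card_fin, Fintype.card_fin, ← mul_assoc] at h1
    exact h1
  have h1 := Pool.Agent.V11231.SMF.card_many hD T N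
  have h3 : 50 * (T.card : ℝ) ≤ N * D := by
    have h4 : 50 * T.card ≤ N * D := (Nat.mul_le_mul_left 50 hBc).trans hN
    exact_mod_cast h4
  have h5 : (0 : ℝ) ≤ (D : ℝ) ^ Fintype.card (Fin m × Fin (n * K)) := by positivity
  have h6 : (N : ℝ) * D * ((univ.filter fun f : Fin m × Fin (n * K) → Fin D =>
      N < (T.filter fun e => (f e : ℕ) = 0).card).card : ℝ) ≤
      (N : ℝ) * D * (1 / 50 * (D : ℝ) ^ Fintype.card (Fin m × Fin (n * K))) := by
    refine h1.trans ?_
    have h7 := mul_le_mul_of_nonneg_right h3 h5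
    linarith
  have h7 := le_of_mul_le_mul_left h6 (by positivity)
  refine le_trans (le_of_eq ?_) h7
  congr 2
  ext f
  rw [mem_filter, mem_filter, hsz, not_le]

end Pool.Agent.V11231.SIF
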