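import Pool.Agent.V11231.SIF.Defs

/-! SetIntersection and unreliable negations. -/

set_option autoImplicit false
set_option linter.unusedSectionVars false
set_option linter.unusedVariables false

namespace Pool.Agent.V11231.SIF

open Finset Pool.Agent.V11231.FLT Pool.Agent.V11231.VCF Pool.Agent.V11231.IXF
  Pool.Agent.V11231.OMF
open Pool.Agent.H525R4.Mono (MonoDS Solves)

/-- The random data structure `C ρ`, for `ρ` uniform in the finite set `R`, tolerates faults of
probability `1 / D` for families of total size at most `N`, with query time `a (T + op)`, where `op`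
is the size of the intersection. For each query `(i, j)` with `i ≠ j`

* the expected number of cells read is at most `a (T + op)`, for each family and each set of faults;
* each element of the intersection is reported with probability at least `4 / 5`, even if each
  negated bit is stuck at `0` independently with probability `1 / D` (each bit `e` gets a random
  number `f e` from `0` to `D - 1`, and `0` means a fault);
* an element outside the intersection is reported with probability at most `1 / 4`, without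
  faults. -/
def Tolerates {m u s : ℕ} (D N : ℕ) (a T : ℝ) (R : Type) (C : R → LiteralDS m u s) :
    Prop :=
  ∀ i j : Fin m, i ≠ j →
    (∀ (x : Fin m × Fin u → Bool) (Z : Set (Fin m × Fin u)),
      (∑ᶠ ρ, ((C ρ).probes x Z i j : ℝ)) / Nat.card R ≤ a * (T + (common x i j).card)) ∧
    (∀ x : Fin m × Fin u → Bool, total x ≤ N →
      (∀ e ∈ common x i j, 4 / 5 ≤ (Nat.card {v : R × (Fin m × Fin u → Fin D) //
        e ∈ (C v.1).reported x {e | (v.2 e : ℕ) = 0} i j} : ℝ) /
          Nat.card (R × (Fin m × Fin u → Fin D))) ∧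
      (Nat.card {ρ : R // ∃ e ∈ (C ρ).reported x ∅ i j, e ∉ common x i j} : ℝ) / Nat.card R ≤
        1 / 4)

open Classical in
/-- The derived data structures solve the small problem. -/
theorem derived_solves {s m n N D K : ℕ} {a T : ℝ} (ha : 0 ≤ a) (hT : 0 ≤ T) (hD : 1 ≤ D)
    (hK : K = 5 * D ^ 2) (hN : 0 < N) (hsz : 50 * (m * n * K) ≤ N * D)
    {R : Type} [Fintype R] [Nonempty R] (C : R → LiteralDS m (n * K) s)
    (hC : Tolerates D N a T R C) :
    Solves (fun _ : R × (Fin m × Fin (n * K) → Fin D) =>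
      1 / (Fintype.card (R × (Fin m × Fin (n * K) → Fin D)) : ℝ))
      (fun v => derived K (C v.1) v.2) (1 / 5) (5 * a) T := by
  have hD0 : 0 < D := hD
  have hDR : (0 : ℝ) < D := by exact_mod_cast hD0
  have hF : Nonempty (Fin D) := ⟨⟨0, hD0⟩⟩
  have hΩ : (0 : ℝ) < Fintype.card (R × (Fin m × Fin (n * K) → Fin D)) := by
    exact_mod_cast Fintype.card_pos
  have hR : (0 : ℝ) < Fintype.card R := by exact_mod_cast Fintype.card_pos
  obtain ⟨W, hW⟩ : ∃ W : ℝ, W = (Fintype.card (R × (Fin m × Fin (n * K) → Fin D)) : ℝ) :=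
    ⟨_, rfl⟩
  have hWP : W = (Fintype.card R : ℝ) * (D : ℝ) ^ Fintype.card (Fin m × Fin (n * K)) := by
    rw [hW, Fintype.card_prod, Fintype.card_fun, Fintype.card_fin D]
    push_cast
    rfl
  rw [← hW] at hΩ ⊢
  refine ⟨fun _ => by positivity, ?_, ?_⟩
  · rw [sum_const, card_univ, nsmul_eq_mul, ← hW]
    field_simp
  intro F i j hij
  obtain ⟨c1, c2⟩ := hC i j hij
  have hP0 : (0 : ℝ) < (D : ℝ) ^ Fintype.card (Fin m × Fin (n * K)) := by positivity
  have hsmall := card_not_total (K := K) hD0 F N hsz hN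
  refine ⟨fun e => ?_, ?_⟩
  · obtain ⟨Q, hQ⟩ : ∃ Q : R → ((Fin m × Fin (n * K)) × Bool → Bool) → Prop, Q = fun ρ y =>
        ∃ q ∈ (C ρ).answer i j (fun c => (C ρ).cell c y), (q : ℕ) / K = e := ⟨_, rfl⟩
    have hAmono : ∀ (ρ : R) (y y' : (Fin m × Fin (n * K)) × Bool → Bool), y ≤ y' →
        Q ρ y → Q ρ y' := by
      rw [hQ]
      rintro ρ y y' h ⟨q, hq, hqe⟩
      exact ⟨q, (C ρ).answer_mono i j (fun c => (C ρ).cell_mono c h) hq, hqe⟩
    have hout : ∀ v : R × (Fin m × Fin (n * K) → Fin D),
        (e ∈ (derived K (C v.1) v.2).out F i j ↔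
          Q v.1 (literals (mix (posS K F) (fun _ => false) v.2) (flt v.2))) := by
      intro v
      rw [derived_out, hQ]
      exact Iff.rfl
    by_cases he : e ∈ F i ∩ F j
    · have key := thick_acc hD0 Q hAmono (posS K F)
        (fun _ => false) (fun f => Both K i j e f ∧
          total (mix (posS K F) (fun _ => false) f) ≤ N) ?_ ?_
      · rw [← hW] at key
        have e1 : ∑ v ∈ univ.filter (fun v : R × (Fin m × Fin (n * K) → Fin D) =>
            (e ∈ (derived K (C v.1) v.2).out F i j ↔ e ∈ F i ∩ F j)), 1 / W =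
            ((univ.filter fun v : R × (Fin m × Fin (n * K) → Fin D) =>
              Q v.1 (literals (mix (posS K F) (fun _ => false) v.2) (flt v.2))).card : ℝ) / W := by
          rw [sum_const, nsmul_eq_mul, mul_one_div]
          congr 3
          ext v
          rw [mem_filter, mem_filter, hout]
          simp only [he, iff_true]
        refine le_trans ?_ (le_of_eq e1.symm)
        rw [le_div_iff₀ hΩ]
        refine le_trans ?_ key
        have : (1 / 2 + 1 / 5 : ℝ) ≤ 3 / 4 := by norm_num
        exact mul_le_mul_of_nonneg_right this hΩ.le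
      · have g1 := card_not_both (K := K) (D := D) hD0 hij e
        have g2 : (1 - 1 / (D : ℝ) ^ 2) ^ K ≤ 1 / 100 := by
          rw [hK]
          exact bad_pair D hD
        have g3 := mul_le_mul_of_nonneg_right g2 hP0.le
        have g4 : ((univ.filter fun f : Fin m × Fin (n * K) → Fin D =>
            ¬ (Both K i j e f ∧ total (mix (posS K F) (fun _ => false) f) ≤ N)).card : ℝ) ≤
            ((univ.filter fun f : Fin m × Fin (n * K) → Fin D => ¬ Both K i j e f).card : ℝ) +
            ((univ.filter fun f : Fin m × Fin (n * K) → Fin D =>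
              ¬ total (mix (posS K F) (fun _ => false) f) ≤ N).card : ℝ) := by
          have g5 : (univ.filter fun f : Fin m × Fin (n * K) → Fin D =>
              ¬ (Both K i j e f ∧ total (mix (posS K F) (fun _ => false) f) ≤ N)) ⊆
              (univ.filter fun f : Fin m × Fin (n * K) → Fin D => ¬ Both K i j e f) ∪
              (univ.filter fun f : Fin m × Fin (n * K) → Fin D =>
                ¬ total (mix (posS K F) (fun _ => false) f) ≤ N) := by
            intro f hf
            rw [mem_filter] at hf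
            rw [mem_union, mem_filter, mem_filter]
            by_cases hp : Both K i j e f
            · exact Or.inr ⟨mem_univ _, fun h => hf.2 ⟨hp, h⟩⟩
            · exact Or.inl ⟨mem_univ _, hp⟩
          exact_mod_cast (card_le_card g5).trans (card_union_le _ _)
        refine le_trans (le_of_eq ?_) (g4.trans ?_)
        · congr!
        · linarith
      · rintro f ⟨⟨y, hy, f1, f2⟩, hs⟩
        have hcom : y ∈ common (mix (posS K F) (fun _ => false) f) i j := by
          rw [mem_common]
          exact ⟨⟨e, hy, he⟩, f1, f2⟩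
        have h4 := (c2 _ hs).1 y hcom
        rw [le_div_iff₀ (by
          rw [Nat.card_eq_fintype_card, ← hW]
          exact hΩ)] at h4
        rw [Nat.card_eq_fintype_card (α := R × (Fin m × Fin (n * K) → Fin D))] at h4
        refine h4.trans ?_
        rw [Nat.card_eq_fintype_card, Fintype.card_subtype, Nat.cast_le]
        refine card_le_card fun v hv => ?_
        rw [mem_filter] at hv ⊢
        rw [hQ]
        exact ⟨mem_univ _, y, hv.2, hy⟩
    · have key := thick_rej2 hD0 Q hAmono (posS K F)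
        (fun _ => false) (fun f => total (mix (posS K F) (fun _ => false) f) ≤ N) ?_ ?_
      · rw [← hW] at key
        have e1 : ∑ v ∈ univ.filter (fun v : R × (Fin m × Fin (n * K) → Fin D) =>
            (e ∈ (derived K (C v.1) v.2).out F i j ↔ e ∈ F i ∩ F j)), 1 / W =
            ((univ.filter fun v : R × (Fin m × Fin (n * K) → Fin D) =>
              ¬ Q v.1 (literals (mix (posS K F) (fun _ => false) v.2) (flt v.2))).card : ℝ) /
              W := by
          rw [sum_const, nsmul_eq_mul, mul_one_div]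
          congr 3
          ext v
          rw [mem_filter, mem_filter, hout]
          simp only [he, iff_false]
        refine le_trans ?_ (le_of_eq e1.symm)
        rw [le_div_iff₀ hΩ]
        have e2 := Finset.card_filter_add_card_filter_not
          (s := (univ : Finset (R × (Fin m × Fin (n * K) → Fin D))))
          (p := fun v => Q v.1 (literals (mix (posS K F) (fun _ => false) v.2) (flt v.2)))
        rw [card_univ] at e2
        have e3 : ((univ.filter fun v : R × (Fin m × Fin (n * K) → Fin D) =>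
            Q v.1 (literals (mix (posS K F) (fun _ => false) v.2) (flt v.2))).card : ℝ) +
            ((univ.filter fun v : R × (Fin m × Fin (n * K) → Fin D) =>
              ¬ Q v.1 (literals (mix (posS K F) (fun _ => false) v.2) (flt v.2))).card : ℝ) =
            W := by
          rw [hW]
          exact_mod_cast e2
        linarith
      · refine le_trans (le_of_eq ?_) (hsmall.trans ?_)
        · congr!
        · linarith
      · intro f hs
        have h4 := (c2 _ hs).2
        rw [div_le_iff₀ (by rw [Nat.card_eq_fintype_card]; exact hR),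
          Nat.card_eq_fintype_card (α := R)] at h4
        refine le_trans ?_ h4
        rw [Nat.card_eq_fintype_card, Fintype.card_subtype, Nat.cast_le]
        refine card_le_card fun ρ hρ => ?_
        rw [mem_filter] at hρ ⊢
        rw [hQ] at hρ
        obtain ⟨-, q, hq, hqe⟩ := hρ
        refine ⟨mem_univ _, q, hq, fun hcon => ?_⟩
        rw [mem_common] at hcon
        obtain ⟨⟨k, hk, hF2⟩, -⟩ := hcon
        have : k = e := Fin.ext (hk.symm.trans hqe)
        rw [this] at hF2
        exact he hF2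
  · -- the cost
    have hcost : ∀ f : Fin m × Fin (n * K) → Fin D, ∑ ρ : R,
        ((derived K (C ρ) f).cost F i j : ℝ) ≤ Fintype.card R *
          (a * (T + ((common (mix (posS K F) (fun _ => false) f) i j).card : ℝ))) := by
      intro f
      have h3 := c1 (mix (posS K F) (fun _ => false) f) (flt f)
      rw [finsum_eq_sum_of_fintype, Nat.card_eq_fintype_card, div_le_iff₀ hR] at h3
      calc ∑ ρ : R, ((derived K (C ρ) f).cost F i j : ℝ)
          = ∑ ρ : R, ((C ρ).probes (mix (posS K F) (fun _ => false) f) (flt f) i j : ℝ) := rfl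
        _ ≤ _ := h3
        _ = _ := mul_comm _ _
    have hsum := sum_common (K := K) hD0 F hij
    have hsum2 : ∑ f : Fin m × Fin (n * K) → Fin D,
        ((common (mix (posS K F) (fun _ => false) f) i j).card : ℝ) ≤
        5 * (F i ∩ F j).card * (D : ℝ) ^ Fintype.card (Fin m × Fin (n * K)) := by
      have hD2 : (0 : ℝ) < (D : ℝ) ^ 2 := by positivity
      refine le_of_mul_le_mul_left (hsum.trans (le_of_eq ?_)) hD2
      rw [hK]
      push_cast
      ring
    have hswap : ∑ v : R × (Fin m × Fin (n * K) → Fin D),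
        ((derived K (C v.1) v.2).cost F i j : ℝ) =
        ∑ f : Fin m × Fin (n * K) → Fin D, ∑ ρ : R, ((derived K (C ρ) f).cost F i j : ℝ) := by
      rw [Fintype.sum_prod_type, sum_comm]
    rw [← mul_sum, hswap]
    have h6 : ∑ f : Fin m × Fin (n * K) → Fin D, ∑ ρ : R,
        ((derived K (C ρ) f).cost F i j : ℝ) ≤ W * (5 * a * (T + (F i ∩ F j).card)) := by
      refine (sum_le_sum fun f _ => hcost f).trans ?_
      rw [← mul_sum, ← mul_sum, sum_add_distrib, sum_const, card_univ, Fintype.card_fun,
        Fintype.card_fin D, nsmul_eq_mul, hWP]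
      push_cast
      obtain ⟨P, hP⟩ : ∃ P : ℝ, P = (D : ℝ) ^ Fintype.card (Fin m × Fin (n * K)) := ⟨_, rfl⟩
      obtain ⟨c, hc⟩ : ∃ c : ℝ, c = ((F i ∩ F j).card : ℝ) := ⟨_, rfl⟩
      rw [← hP, ← hc] at hsum2
      rw [← hP, ← hc]
      rw [← hP] at hP0
      have h7 : P * T + ∑ f : Fin m × Fin (n * K) → Fin D,
          ((common (mix (posS K F) (fun _ => false) f) i j).card : ℝ) ≤
          P * (5 * (T + c)) := by
        have h8 : 0 ≤ P * T := by positivity
        linarith
      calc (Fintype.card R : ℝ) * (a * (P * T + ∑ f : Fin m × Fin (n * K) → Fin D,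
          ((common (mix (posS K F) (fun _ => false) f) i j).card : ℝ)))
          ≤ (Fintype.card R : ℝ) * (a * (P * (5 * (T + c)))) :=
            mul_le_mul_of_nonneg_left (mul_le_mul_of_nonneg_left h7 ha) hR.le
        _ = _ := by ring
    calc 1 / W * ∑ f : Fin m × Fin (n * K) → Fin D, ∑ ρ : R,
          ((derived K (C ρ) f).cost F i j : ℝ)
        ≤ 1 / W * (W * (5 * a * (T + (F i ∩ F j).card))) :=
          mul_le_mul_of_nonneg_left h6 (by positivity)
      _ = _ := by field_simp

/-- **SetIntersection needs reliable negations.** -/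
theorem inter_fault (N D : ℕ) (a T : ℝ) (hD : 1 ≤ D) (hN : 500 * D ≤ N) (ha : 1 ≤ a)
    (hT : 1 ≤ T) :
    ∃ m u : ℕ, m * u ≤ N * D ∧ ∀ (s : ℕ) (R : Type) [Finite R] [Nonempty R]
      (C : R → LiteralDS m u s), Tolerates D N a T R C →
        (N : ℝ) ^ 2 ≤ 10 ^ 14 * D ^ 2 * a ^ 2 * T * s * Real.logb 2 (5 * N) ^ 3 := by
  have hDR : (1 : ℝ) ≤ D := by exact_mod_cast hD
  have hDpos : (0 : ℝ) < D := by linarith
  obtain ⟨M, hM⟩ : ∃ M, M = N / (250 * D) := ⟨_, rfl⟩
  have hM1 : M * (250 * D) ≤ N := by
    rw [hM]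
    exact Nat.div_mul_le_self N (250 * D)
  have hM2 : N < (M + 1) * (250 * D) := by
    have h7 := Nat.div_add_mod N (250 * D)
    have h8 := Nat.mod_lt N (by omega : 250 * D > 0)
    rw [← hM] at h7
    calc N = 250 * D * M + N % (250 * D) := h7.symm
      _ < 250 * D * M + 250 * D := by omega
      _ = _ := by ring
  have hM3 : 2 ≤ M := by
    rw [hM, Nat.le_div_iff_mul_le (by omega)]
    omega
  obtain ⟨m, n, hmn, hlow⟩ := Pool.Agent.H525R4.Mono.lower hM3 (δ := 1 / 5) (C := 5 * a) (T := T)
    (by norm_num) (by norm_num) (by linarith) hT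
  have hsz : 50 * (m * n * (5 * D ^ 2)) ≤ N * D := by
    calc 50 * (m * n * (5 * D ^ 2)) = (m * n) * (250 * D) * D := by ring
      _ ≤ M * (250 * D) * D := Nat.mul_le_mul_right D (Nat.mul_le_mul_right _ hmn)
      _ ≤ N * D := Nat.mul_le_mul_right D hM1
  refine ⟨m, n * (5 * D ^ 2), ?_, ?_⟩
  · calc m * (n * (5 * D ^ 2)) = m * n * (5 * D ^ 2) := by ring
      _ ≤ 50 * (m * n * (5 * D ^ 2)) := Nat.le_mul_of_pos_left _ (by norm_num)
      _ ≤ N * D := hsz
  intro s R _ _ C hC
  have _ : Fintype R := Fintype.ofFinite R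
  have hNpos : 0 < N := by omega
  have hsol := derived_solves (by linarith : (0 : ℝ) ≤ a) (by linarith : (0 : ℝ) ≤ T) hD rfl
    hNpos hsz C hC
  have key := hlow s _ _ _ hsol
  have hMR : (2 : ℝ) ≤ M := by exact_mod_cast hM3
  have hMN : (M : ℝ) ≤ N := by
    have : M ≤ N := by
      calc M ≤ M * (250 * D) := Nat.le_mul_of_pos_right _ (by omega)
        _ ≤ N := hM1
    exact_mod_cast this
  have hlg : Real.logb 2 ((M : ℝ) / (1 / 5)) ≤ Real.logb 2 (5 * N) := by
    apply Real.logb_le_logb_of_le (by norm_num) (by positivity)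
    have h3 : (M : ℝ) / (1 / 5) = 5 * M := by ring
    rw [h3]
    linarith
  have hlg0 : 0 ≤ Real.logb 2 ((M : ℝ) / (1 / 5)) := by
    apply Real.logb_nonneg (by norm_num)
    have h3 : (M : ℝ) / (1 / 5) = 5 * M := by ring
    rw [h3]
    linarith
  have hlg3 : Real.logb 2 ((M : ℝ) / (1 / 5)) ^ 3 ≤ Real.logb 2 (5 * N) ^ 3 :=
    pow_le_pow_left₀ hlg0 hlg 3
  have h3 : (1 / 5 : ℝ) ^ 3 * (M : ℝ) ^ 2 ≤
      10 ^ 5 * (5 * a) ^ 2 * T * s * Real.logb 2 (5 * N) ^ 3 :=
    key.trans (mul_le_mul_of_nonneg_left hlg3 (by positivity))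
  have h4 : (N : ℝ) ≤ 500 * D * M := by
    have h5 : N ≤ 500 * D * M := by
      have : M + 1 ≤ 2 * M := by omega
      calc N ≤ (M + 1) * (250 * D) := hM2.le
        _ ≤ (2 * M) * (250 * D) := Nat.mul_le_mul_right _ this
        _ = _ := by ring
    exact_mod_cast h5
  have hX : 0 ≤ (D : ℝ) ^ 2 * a ^ 2 * T * s * Real.logb 2 (5 * N) ^ 3 := by
    have : 0 ≤ Real.logb 2 (5 * N) := hlg0.trans hlg
    positivity
  calc (N : ℝ) ^ 2 ≤ (500 * D * M) ^ 2 := pow_le_pow_left₀ (Nat.cast_nonneg _) h4 2
    _ = 31250000 * D ^ 2 * ((1 / 5 : ℝ) ^ 3 * (M : ℝ) ^ 2) := by ring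
    _ ≤ 31250000 * D ^ 2 * (10 ^ 5 * (5 * a) ^ 2 * T * s * Real.logb 2 (5 * N) ^ 3) :=
        mul_le_mul_of_nonneg_left h3 (by positivity)
    _ = 78125000000000 * ((D : ℝ) ^ 2 * a ^ 2 * T * s * Real.logb 2 (5 * N) ^ 3) := by ring
    _ ≤ 10 ^ 14 * ((D : ℝ) ^ 2 * a ^ 2 * T * s * Real.logb 2 (5 * N) ^ 3) :=
        mul_le_mul_of_nonneg_right (by norm_num) hX
    _ = _ := by ring

open Classical in
/-- With reliable negations two cells suffice for everything. -/
theorem two_cells (m u : ℕ) : ∃ C : LiteralDS m u 2,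
    (∀ (x : Fin m × Fin u → Bool) (Z : Set (Fin m × Fin u)) (i j : Fin m),
      C.probes x Z i j ≤ 2) ∧
    ∀ (x : Fin m × Fin u → Bool) (i j : Fin m), C.reported x ∅ i j = common x i j := by
  obtain ⟨e, he⟩ : ∃ e : (Fin m × Fin u → Bool) → ℕ, e = fun x => (Fintype.equivFin _ x : ℕ) :=
    ⟨_, rfl⟩
  obtain ⟨T, hT⟩ : ∃ T : ℕ, T = Fintype.card (Fin m × Fin u → Bool) := ⟨_, rfl⟩
  have heT : ∀ x, e x < T := by
    intro x
    rw [he, hT]
    exact Fin.isLt _
  have hinj : ∀ x x', e x = e x' → x = x' := by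
    intro x x' h
    rw [he] at h
    exact (Fintype.equivFin _).injective (Fin.ext h)
  obtain ⟨F, hF⟩ : ∃ F : ((Fin m × Fin u) × Bool → Bool) → Finset (Fin m × Fin u → Bool),
      F = fun y => univ.filter fun x => literals x ∅ ≤ y := ⟨_, rfl⟩
  have hFm : ∀ y y', y ≤ y' → F y ⊆ F y' := by
    intro y y' h x hx
    rw [hF] at hx ⊢
    simp only [mem_filter, mem_univ, true_and] at hx ⊢
    exact hx.trans h
  have hF1 : ∀ x, F (literals x ∅) = {x} := by
    intro x
    rw [hF]
    ext x'
    simp only [mem_filter, mem_univ, true_and, mem_singleton]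
    exact ⟨fun h => lit_le_lit h, fun h => by rw [h]⟩
  refine ⟨{
    cell := fun c y => if c = 0 then (((F y).sup fun x => e x + 1 : ℕ) : ℝ)
      else (((F y).sup fun x => T - e x : ℕ) : ℝ)
    cell_mono := ?_
    reads := fun _ _ _ => univ
    answer := fun i j M => univ.filter fun q => ∃ x, q ∈ common x i j ∧
      ((e x + 1 : ℕ) : ℝ) ≤ M 0 ∧ ((T - e x : ℕ) : ℝ) ≤ M 1
    answer_mono := ?_
    answer_reads := ?_ }, ?_, ?_⟩
  · intro c y y' h
    show (if c = 0 then (((F y).sup fun x => e x + 1 : ℕ) : ℝ)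
      else (((F y).sup fun x => T - e x : ℕ) : ℝ)) ≤ (if c = 0 then
        (((F y').sup fun x => e x + 1 : ℕ) : ℝ) else (((F y').sup fun x => T - e x : ℕ) : ℝ))
    split_ifs
    · exact_mod_cast Finset.sup_mono (hFm y y' h)
    · exact_mod_cast Finset.sup_mono (hFm y y' h)
  · intro i j M M' h q hq
    rw [mem_filter] at hq ⊢
    obtain ⟨-, x, h1, h2, h3⟩ := hq
    exact ⟨mem_univ _, x, h1, h2.trans (h _), h3.trans (h _)⟩
  · intro i j M M' h
    have h1 : M' = M := funext fun c => h c (mem_univ _)
    rw [h1]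
  · intro x Z i j
    show (univ : Finset (Fin 2)).card ≤ 2
    simp
  · intro x i j
    show (univ.filter fun q => ∃ x', q ∈ common x' i j ∧ ((e x' + 1 : ℕ) : ℝ) ≤
      (if (0 : Fin 2) = 0 then (((F (literals x ∅)).sup fun x => e x + 1 : ℕ) : ℝ)
        else (((F (literals x ∅)).sup fun x => T - e x : ℕ) : ℝ)) ∧ ((T - e x' : ℕ) : ℝ) ≤
      (if (1 : Fin 2) = 0 then (((F (literals x ∅)).sup fun x => e x + 1 : ℕ) : ℝ)
        else (((F (literals x ∅)).sup fun x => T - e x : ℕ) : ℝ))) = common x i j
    rw [hF1, if_pos rfl, if_neg (by decide), Finset.sup_singleton, Finset.sup_singleton]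
    ext q
    rw [mem_filter]
    constructor
    · rintro ⟨-, x', h1, h2, h3⟩
      have h4 : e x' + 1 ≤ e x + 1 := by exact_mod_cast h2
      have h5 : T - e x' ≤ T - e x := by exact_mod_cast h3
      have h6 := heT x
      have h7 := heT x'
      have h8 : x' = x := hinj _ _ (by omega)
      rw [← h8]
      exact h1
    · intro h
      exact ⟨mem_univ _, x, h, le_refl _, le_refl _⟩

end Pool.Agent.V11231.SIF
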